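import Pool.Agent.Run7.h606.DB.Cls

/-!
# Betti numbers above the middle dimension for the full subcomplexes of unfoldable flag complexes

Let `L` be the flag complex of the finite graph `G`. If `L` is piecewise linearly embedded in the `(n-1)`-sphere as a
full subcomplex of a triangulation then the Davis complex of the right-angled Coxeter group `W G` thickens to a
contractible `n`-manifold with boundary, and the torsion-free subgroups of finite index of `W G` are the fundamental
groups of compact aspherical `n`-manifolds with boundary.

The class `LR n` is closed under the usual operations and under unfolding: if the double `DG G v` of `G` at the vertex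
`v` (two copies of `G - v`, glued along the link of `v`) is in the class then so is `G`. It contains for `n = 2 d + 1`
every full subgraph `G` of a flag homology sphere mod `2` of dimension at most `2 d` with a set `A` of vertices such
that `G - A` is properly coloured by `d + 1` colours and each element of `A` is adjacent to all the other elements of
`A` with at most one exception, and for `n = 2 d` every graph `G` with such a set `A` for which the cliques of `G - A`
have at most `d` elements; there is no condition on the links of the elements of `A`.
-/

set_option autoImplicit false

namespace Pool.Agent.Results.MP_8fe54c_gt.AmenableUnfoldings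

open Pool.Agent.W907.SG Pool.Agent.Y132.SI Pool.Agent.R781.VS Pool.Agent.Run7.h606.DB

/-- Let the finite graph `G` be in the class `LR n` and let `A` be a set of vertices. (1) There are no nonzero `ℓ²`
harmonic `i`-chains on the Davis complex of the special subgroup `W (G.induce A)` of `W G` for `i > n / 2`. (2) For
each `ε > 0` there is a finite set `E` of nontrivial elements of `W (G.induce A)` such that for every subgroup `H` of
finite index which contains no conjugate of an element of `E`, and for all `i > n / 2`, the `i`-th real Betti number
of `H` is at most `ε [W (G.induce A) : H]`. -/
theorem result : ∀ (n : ℕ) (V : Type) (G : SimpleGraph V), LR n G → ∀ (A : Set V) [Fintype A] [LinearOrder A],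
    (∀ i : ℕ, n < 2 * i → L2Van (G.induce A) i) ∧
    ∀ ε : ℝ, 0 < ε → ∃ E : Finset (W (G.induce A)), (1 : W (G.induce A)) ∉ E ∧
      ∀ H : Subgroup (W (G.induce A)), H.FiniteIndex → (∀ g ∈ E, ∀ x : W (G.induce A), x * g * x⁻¹ ∉ H) →
        ∀ i : ℕ, n < 2 * i → (Module.finrank ℝ (HInv (G.induce A) H i) : ℝ) ≤ ε * H.index := by
  intro n V G hG A _ _
  have h : ∀ i : ℕ, n < 2 * i → L2Van (G.induce A) i := fun i hi => above_LR (LR.full G A hG) i hi
  exact ⟨h, fun ε hε => growth_of_above _ n h ε hε⟩

end Pool.Agent.Results.MP_8fe54c_gt.AmenableUnfoldings
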