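import Pool.Agent.Run7.h604.HK.Laws2

/-!
# `L²`-Betti numbers above the middle dimension: superexponentially small suffices

A class of compact aspherical manifolds, possibly with boundary, closed under products and containing
the surfaces, or more generally a class of cocompact complexes (`Cplx`), is considered, and any
submultiplicative size `s` (for example the number of the orbits of cells). The `L²`-Betti numbers of
all members vanish above half the dimension if and only if for every `ε > 0` there are arbitrarily
large `m` such that `b_k ≤ ε ^ m s + β` for all members of dimension `2 m` and all `k ≥ (1 + ε) m`,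
where `β` is any number depending on `m` and `ε`. In particular it is enough to know the vanishing
above `m + o (m)`, in infinitely many even dimensions `2 m`.

Outline. The Künneth formula for reduced `L²`-homology, which is proved for these complexes, and
multiplication by surfaces of large genus and powers.
-/

set_option autoImplicit false

namespace Pool.Agent.Results.MP_8fe54c_gt.SmallAboveMiddle

open Pool.Agent.Run7.h604.HK

theorem result (𝒞 : Cplx → Prop) (hp : ∀ A B, 𝒞 A → 𝒞 B → 𝒞 (A.prod B))
    (s : Cplx → ℝ) (hs0 : ∀ A, 𝒞 A → 0 ≤ s A)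
    (hs : ∀ A B, 𝒞 A → 𝒞 B → s (A.prod B) ≤ s A * s B) (c : ℝ)
    (hS : ∀ t : ℝ, ∃ S, 𝒞 S ∧ S.dim = 2 ∧ t ≤ S.betti 1 ∧ s S ≤ c * S.betti 1) :
    (∀ A, 𝒞 A → ∀ k, A.dim < 2 * k → A.betti k = 0) ↔
      ∀ ε : ℝ, 0 < ε → ∀ N : ℕ, ∃ m ≥ N, ∃ β : ℝ, ∀ A, 𝒞 A → A.dim = 2 * m →
        ∀ k : ℕ, (1 + ε) * m ≤ k → A.betti k ≤ ε ^ m * s A + β :=
  Cplx.above_middle_iff 𝒞 hp s hs0 hs c hS

end Pool.Agent.Results.MP_8fe54c_gt.SmallAboveMiddle
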