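import Pool.Agent.Run7.h709.AC.Chi
import Pool.Agent.Run7.h709.AC.Emb

/-!
# Vanishing above the middle dimension for all the subgroups: the first barycentric subdivision

Let `W G` be the right-angled Coxeter group of the finite graph `G`, and let `Γ` be the kernel of `W G → (ℤ/2)^V`, a
torsion free subgroup of finite index. If the flag complex of `G` is a triangulation (as a combinatorial manifold) of
the `(n-1)`-sphere then `Γ` is the fundamental group of a closed aspherical `n`-manifold `M`, the quotient of the Davis
complex; if it is a full subcomplex of such a triangulation then `Γ` is the fundamental group of a compact aspherical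
`n`-manifold `M` with boundary. The subgroups `K` of `Γ`, of finite or infinite index, finitely generated or not, are
the fundamental groups of the covers of `M`.

Let `X` be any simplicial complex of dimension at most `5` (no embedding, no flagness, no manifold is assumed), and let
`G` be the graph of its barycentric subdivision. We prove `b_k(K) = 0` (`HasL2Betti K k 0`: Lueck's dimension of
`Tor_k^{ℤ[K]}(N(K), ℤ)`, `N(K)` the group von Neumann algebra) for all the subgroups `K` of `Γ` and all `k > m`, where
`dim X ≤ 2 m - 1` (`m ≤ 3`), and for all `k > d` if `X` is a complex of dimension at most `2 d` in the sphere of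
dimension `2 d`, `d ≤ 2`. So for every triangulation of the sphere of dimension `n - 1 ≤ 5`, and for every complex in it,
the first barycentric subdivision satisfies: `b_k(K) = 0` for all `k > n / 2` and all `K ≤ Γ`. Therefore each compact
aspherical manifold of dimension `≥ n`, with or without boundary, whose fundamental group is isomorphic to a subgroup
of `Γ`, satisfies the assertion of Q1, in particular all the covers of `M`.

More generally, the vertices of `X` can be coloured, and only the monochromatic simplices are subdivided (`cs X col`):
the simplices of one special colour can have up to six vertices, those of the other colours up to two vertices. In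
this form the theorem gives examples in all dimensions.
-/

set_option autoImplicit false

namespace Pool.Agent.Results.MP_8fe54c_gt.SubgroupsOfReflectionGroups

open Pool.Agent.W907.SG Pool.Agent.W461.SGN Pool.Agent.N496.CV Pool.Agent.R782.Bal Run7.h709.AC

/-- `X` is a simplicial complex, and each simplex of `X` all of whose vertices have the colour `c` has at most
`2 a c` vertices. -/
def Bounded {N n : ℕ} (X : Finset (Finset (Fin N))) (col : Fin N → Fin n) (a : Fin n → ℕ) : Prop :=
  (∀ σ ∈ X, ∀ τ : Finset (Fin N), τ ⊆ σ → τ ∈ X) ∧
    ∀ σ ∈ X, ∀ c, (∀ v ∈ σ, col v = c) → σ.card ≤ 2 * a c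

/-- Let `X` be a finite simplicial complex with coloured vertices such that the simplices with all the vertices of the
colour `c` have at most `2 a c` vertices, let `G = cs X col` be the graph of its colourwise barycentric subdivision
(the barycentric subdivision if there is only one colour), and let `Γ` be the kernel of `W G → (ℤ/2)^V`. (0) `Γ` is
torsion free of finite index. (1) If `a c₀ ≤ 3` for one colour `c₀` and `a c ≤ 1` for the other colours `c`, then for
every subgroup `K ≤ Γ`, of finite or infinite index, the `L²`-Betti numbers `b_k(K)` vanish for all `k > ∑ a c`.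
(2) If `d ≤ 2`, `∑ a c ≤ d + 1`, and `X` is of dimension at most `2 d` and embedded in the sphere of dimension `2 d`,
then for every subgroup `K ≤ Γ` the `L²`-Betti numbers `b_k(K)` vanish for all `k > d`. (With one colour: `X` is an
arbitrary complex of dimension at most `5` in (1), `a = 1, 2, 3`, and an arbitrary complex of dimension at most `2 d`
in the sphere of dimension `2 d`, `d = 1, 2`, in (2).) -/
theorem result :
    (∀ (N n : ℕ) (X : Finset (Finset (Fin N))) (col : Fin N → Fin n) [Fintype (MF X col)] [LinearOrder (MF X col)],
      (th (cs X col)).ker.FiniteIndex ∧ ∀ g ∈ (th (cs X col)).ker, ∀ j : ℕ, 0 < j → g ^ j = 1 → g = 1) ∧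
    (∀ (N n : ℕ) (X : Finset (Finset (Fin N))) (col : Fin N → Fin n) (a : Fin n → ℕ) (c₀ : Fin n),
      Bounded X col a → a c₀ ≤ 3 → (∀ c, c ≠ c₀ → a c ≤ 1) →
      ∀ [Fintype (MF X col)] [LinearOrder (MF X col)], ∀ K : Subgroup (W (cs X col)), K ≤ (th (cs X col)).ker →
        ∀ k : ℕ, ∑ c, a c < k → HasL2Betti K k 0) ∧
    (∀ (N n d : ℕ) (X : Finset (Finset (Fin N))) (col : Fin N → Fin n) (a : Fin n → ℕ),
      Bounded X col a → d ≤ 2 → ∑ c, a c ≤ d + 1 → (∀ σ ∈ X, σ.card ≤ 2 * d + 1) → EmbX d X col →
      ∀ [Fintype (MF X col)] [LinearOrder (MF X col)], ∀ K : Subgroup (W (cs X col)), K ≤ (th (cs X col)).ker →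
        ∀ k : ℕ, d < k → HasL2Betti K k 0) := by
  refine ⟨?_, ?_, ?_⟩
  · intro N n X col _ _
    exact ⟨inferInstance, fun g hg j hj hgj => Pool.Agent.N496.CV.tf' _ (cs X col) g hg j hj hgj⟩
  · intro N n X col a c₀ hX h3 h1 _ _ K hK k hk
    exact main_has _ (ac_bary hX.1 a c₀ h3 h1 hX.2) K hK k (by omega) (by omega)
  · intro N n d X col a hX hd hsum hdim hE _ _ K hK k hk
    exact main_has _ (ac_bary_emb hX.1 a d hd hsum hX.2 hdim (hE.emb hX.1).obs) K hK k (by omega) (by omega)

end Pool.Agent.Results.MP_8fe54c_gt.SubgroupsOfReflectionGroups
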