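import Pool.Agent.Run7.h31.Raise.Restrict

/-!
# `L²`-Betti numbers above the middle dimension and cochains which can be pushed upwards

Let `M` be a compact manifold with or without boundary, for instance an aspherical one, and let `D` be
the complex of finitely generated free modules over the complex group algebra of `G = π₁(M)` given by
a finite cell structure of `M`. The column vectors form the complex of the compactly supported
cochains of the universal covering. We pass to a finite covering of `M`, that is, to the restriction
`D'` of `D` to a subgroup `H` of finite index, and let the basis cochains of `D'` have heights in a
totally ordered set `X` on which `H` acts by order-preserving maps.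

If an endomorphism of the cochains of degree `i` is homotopic to the identity and strictly raises the
heights of all but `c` basis cochains, then the `i`-th `L²`-Betti number of `M` is at most
`c / [G : H]`. Such endomorphisms without exceptions exist in all degrees at least `k` if every
cochain of such a degree whose coboundary has large heights is the sum of a coboundary and of a
cochain of large heights. Then the `L²`-Betti numbers of the degrees at least `k` vanish. The question
of Okun and Schreve asks for this with the least `k > n / 2`. By duality the condition concerns
the relative homology of the universal covering modulo its boundary in the degrees at most `n - k`.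

Outline. Let `Z` be the matrix of the endomorphism. Harmonic cochains are in the kernel of `1 - Z`,
because `1 - Z` is homotopic to zero. The adjoint of `1 - Z` is the operator of the transposed matrix,
whose rows raise the heights, and the level inequality `N309.LO.level_le` for ordered sets bounds the
dimension of its kernel. The homotopies are constructed by descending induction on the degree. The
`L²`-Betti numbers are multiplied by the index under the restriction to `H`.
-/

set_option autoImplicit false

open scoped Matrix

universe u v

namespace Pool.Agent.Results.MP_8fe54c_gt.UpwardCochains

open Pool.Agent.Results.MP_984acc_gt.OrderRaising Run7.h31.Raise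

/-- **Cochains which can be pushed upwards in a finite covering.** Let `D'` be the restriction of
the complex `D` of finitely generated free modules to a subgroup `H` of finite index, and let `X` be a
totally ordered set on which `H` acts by order-preserving maps.

1. If the endomorphism of the cochains of `D'` of degree `i` with the matrix `Z` is homotopic to the
identity and strictly raises the heights of the basis cochains outside the set `T`, then
`[G : H] * betti D i ≤ |T|`.
2. Let `D` be of finite length, let `X` have no greatest element and `k ≥ 1`. If the cochains of `D'`
are upward exact in the degrees at least `k`, then the `L²`-Betti numbers of `D` in these degrees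
vanish. -/
theorem result (G : Type u) [Group G] (H : Subgroup G) [H.FiniteIndex] (r r' : ℕ → ℕ)
    (D : Matrices G r) (hD : ∀ i, D (i + 1) * D i = 0) (D' : Matrices H r')
    (hD' : IsRestriction D D') (X : Type v) [LinearOrder X] [MulAction H X]
    (hX : OrderInvariant H X) :
    (∀ (i : ℕ) (Z : Matrix (Fin (r' i)) (Fin (r' i)) (MonoidAlgebra ℂ H)) (w : Fin (r' i) → X)
      (T : Finset (Fin (r' i))), IsHomotopicToOne D' i Z →
      (∀ j, j ∉ T → CoHeightsMoreThan w (w j) (fun l => Z l j)) →
      (H.index : ℝ) * betti D i ≤ T.card) ∧
    (∀ [NoMaxOrder X] (N k : ℕ) (w : ∀ i, Fin (r' i) → X), (∀ i, N < i → r i = 0) → 1 ≤ k →
      IsUpwardExact k D' w → ∀ i, k ≤ i → betti D i = 0) := by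
  have hc := comp_res hD' hD
  constructor
  · intro i Z w T hZ hT
    rw [← betti_restr hD']
    exact coraised_bound hX D' hc i Z hZ w T hT
  · intro _ N k w hN hk hw i hi
    exact zero_of_restr hD' i (co_vanish hX D' hc N
      (fun j hj => rank_restr hD' j (hN j hj)) w k hk hw i hi)

end Pool.Agent.Results.MP_8fe54c_gt.UpwardCochains
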